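import Pool.Agent.Results.MP_898cae_lc.ModNullAleph1CovM

/-!
The earlier, weaker hand-in, now a special case of `ModNullAleph1CovM`.
-/

namespace Pool.Agent.Lib.MP_898cae_lc.Variants

theorem modNullConsistent : ∃ (M : Type 1) (E : M → M → Prop), ZFC E ∧ PropLt E := by
  obtain ⟨M, E, h, w, B, R, h1, h2, h3, h4, h5, h6, h7, -, h8, -⟩ :=
    Pool.Agent.Results.MP_898cae_lc.ModNullAleph1CovM.result
  exact ⟨M, E, h, w, B, R, h1, h2, h3, h4, h8, h5, h6, h7⟩

end Pool.Agent.Lib.MP_898cae_lc.Variants
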